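import Pool.Agent.Y775.W3.Stm

/-!
# Project W3: alternating forms on integers
-/

set_option autoImplicit false

namespace Pool.Agent.Y117.W3

open Y775.W3

theorem main (h1 : StmHOM) (h2 : StmINT) (h3 : StmLOC) : StmALTI := by
  intro W _ L hL n ω hanti hneg hcyc
  have hL1 : L 1 = 0 := by
    have h := hL 1 1 one_ne_zero one_ne_zero
    rw [mul_one] at h
    simpa using h
  have hself : ∀ w, ω w w = 0 := fun w => by
    have := hanti w w
    linarith
  have key : ∀ m : ℕ, m ≤ n → ∀ a b : ℤ, a ≠ 0 → b ≠ 0 → a.natAbs < m → b.natAbs < m →
      ω (L a) (L b) = 0 := by
    intro m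
    induction m with
    | zero =>
      intro _ a b _ _ ha
      omega
    | succ m ih =>
      intro hm a b ha hb ham hbm
      have ih' := ih (by omega)
      have hm0 : m ≠ 0 := by
        intro h0
        rw [h0] at ham
        have : a.natAbs = 0 := by omega
        exact ha (Int.natAbs_eq_zero.mp this)
      have hmZ : (m : ℤ) ≠ 0 := by exact_mod_cast hm0
      have hQ : ∀ b : ℤ, b ≠ 0 → b.natAbs < m → ω (L (m : ℤ)) (L b) = 0 := by
        rcases Nat.lt_or_ge m 2 with hm2 | hm2
        · have hm1 : m = 1 := by omega
          intro b _ _
          rw [hm1, Nat.cast_one, hL1]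
          simp
        · by_cases hp : m.Prime
          · haveI : Fact m.Prime := ⟨hp⟩
            obtain ⟨D, hDp, hDρ, hDS, hDA, hDr⟩ := h2 m
            have hφ := h1 ℤ (ZMod m) D (h3.2.2 m) (fun b => ω (L (m : ℤ)) (L b)) (by
              intro b hb c hc hbc
              rw [hDS] at hb hc
              obtain ⟨hb0, hbm⟩ := hb
              obtain ⟨hc0, hcm⟩ := hc
              have hbcm : (b * c).natAbs < m := (hDA b c).mp hbc
              have hbc0 : b * c ≠ 0 := mul_ne_zero hb0 hc0
              set r : ℤ := D.rep (D.ρ b * D.ρ c) with hr
              have hr1 : r = ZMod.valMinAbs ((b * c : ℤ) : ZMod m) := by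
                rw [hr, hDr, hDρ]
                congr 1
                push_cast
                rfl
              have hr2 : ((r : ℤ) : ZMod m) = ((b * c : ℤ) : ZMod m) := by
                rw [hr1]
                exact ZMod.coe_valMinAbs _
              have hr3 : r.natAbs ≤ m / 2 := by
                rw [hr1]
                exact ZMod.natAbs_valMinAbs_le _
              have hdvd : (m : ℤ) ∣ b * c - r := by
                rw [← ZMod.intCast_zmod_eq_zero_iff_dvd] at *
                rw [Int.cast_sub, hr2, sub_self]
              have hr0 : r ≠ 0 := by
                intro h0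
                rw [h0, sub_zero] at hdvd
                have := Int.natAbs_dvd_natAbs.mpr hdvd
                rw [Int.natAbs_natCast] at this
                have h4 := Nat.le_of_dvd (Int.natAbs_pos.mpr hbc0) this
                omega
              have hrm : r.natAbs < m := by omega
              have hLbc : L (b * c) = L b + L c := hL b c hb0 hc0
              have hthird : ω (L (b * c)) (L r) = 0 := by
                rw [hLbc, map_add, LinearMap.add_apply, ih' b r hb0 hr0 hbm hrm,
                  ih' c r hc0 hr0 hcm hrm, add_zero]
              have hcases : b * c = r ∨ r + (m : ℤ) = b * c ∨ r + (-(m : ℤ)) = b * c := by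
                obtain ⟨k, hk⟩ := hdvd
                have hk1 : k = 0 ∨ k = 1 ∨ k = -1 := by
                  have h5 : (b * c - r).natAbs < 2 * m := by omega
                  rw [hk, Int.natAbs_mul, Int.natAbs_natCast] at h5
                  have h6 : k.natAbs < 2 := by
                    by_contra hcon
                    push Not at hcon
                    nlinarith
                  omega
                rcases hk1 with h5 | h5 | h5
                · left
                  rw [h5] at hk
                  linarith
                · right; left
                  rw [h5] at hk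
                  linarith
                · right; right
                  rw [h5] at hk
                  linarith
              have hgoal : ω (L (m : ℤ)) (L r) = ω (L (m : ℤ)) (L (b * c)) := by
                rcases hcases with h5 | h5 | h5
                · rw [h5]
                · have h6 := hcyc r ⟨hr0, by omega⟩ (m : ℤ) ⟨hmZ, by simpa using (by omega : m < n)⟩
                    (b * c) ⟨hbc0, by omega⟩ h5
                  unfold sF at h6
                  rw [hthird, hanti (L r) (L (m : ℤ))] at h6
                  linarith
                · have h6 := hcyc r ⟨hr0, by omega⟩ (-(m : ℤ))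
                    ⟨neg_ne_zero.mpr hmZ, by
                      rw [Int.natAbs_neg, Int.natAbs_natCast]
                      omega⟩ (b * c) ⟨hbc0, by omega⟩ h5
                  unfold sF at h6
                  rw [hthird, hanti (L r) (L (-(m : ℤ))), hneg _ _ hmZ, hneg _ _ hmZ] at h6
                  linarith
              show ω (L (m : ℤ)) (L r) = ω (L (m : ℤ)) (L b) + ω (L (m : ℤ)) (L c)
              rw [hgoal, hLbc, map_add])
            intro b hb hbm
            exact hφ b (by rw [hDS]; exact ⟨hb, hbm⟩)
          · obtain ⟨m1, hm1d, hm1a, hm1b⟩ := Nat.exists_dvd_of_not_prime2 hm2 hp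
            obtain ⟨m2, hm12⟩ := hm1d
            intro b hb hbm
            have hm2a : m2 ≠ 0 := by
              rintro rfl
              omega
            have hm2b : m2 < m := by
              rw [hm12]
              nlinarith [Nat.pos_of_ne_zero hm2a]
            have h5 : L (m : ℤ) = L (m1 : ℤ) + L (m2 : ℤ) := by
              rw [hm12]
              push_cast
              exact hL _ _ (by exact_mod_cast (by omega : m1 ≠ 0)) (by exact_mod_cast hm2a)
            rw [h5, map_add, LinearMap.add_apply,
              ih' (m1 : ℤ) b (by exact_mod_cast (by omega : m1 ≠ 0)) hb (by simpa using hm1b) hbm,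
              ih' (m2 : ℤ) b (by exact_mod_cast hm2a) hb (by simpa using hm2b) hbm, add_zero]
      have hQ2 : ∀ b : ℤ, b ≠ 0 → b.natAbs ≤ m → ω (L (m : ℤ)) (L b) = 0 := by
        intro b hb hbm
        rcases Nat.lt_or_ge b.natAbs m with h | h
        · exact hQ b hb h
        · have h5 : b = m ∨ b = -(m : ℤ) := by omega
          rcases h5 with h5 | h5
          · rw [h5]
            exact hself _
          · rw [h5, hanti, hneg _ _ hmZ, hself, neg_zero]
      have hQ3 : ∀ a b : ℤ, a ≠ 0 → b ≠ 0 → a.natAbs = m → b.natAbs ≤ m → ω (L a) (L b) = 0 := by
        intro a b _ hb ha hbm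
        have h5 : a = m ∨ a = -(m : ℤ) := by omega
        rcases h5 with h5 | h5
        · rw [h5]
          exact hQ2 b hb hbm
        · rw [h5, hneg _ _ hmZ]
          exact hQ2 b hb hbm
      rcases Nat.lt_or_ge a.natAbs m with h4 | h4
      · rcases Nat.lt_or_ge b.natAbs m with h5 | h5
        · exact ih' a b ha hb h4 h5
        · rw [hanti, hQ3 b a hb ha (by omega) (by omega), neg_zero]
      · exact hQ3 a b ha hb (by omega) (by omega)
  intro a ha b hb
  exact key n le_rfl a b ha.1 hb.1 ha.2 hb.2

end Pool.Agent.Y117.W3
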